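import Mathlib
import Pool.Agent.H79.JTDefs
import Pool.Agent.H79.JT2

set_option autoImplicit false

namespace Pool.Agent.Results.MP_de5a23_al.Never

open Pool.Agent.H79.JT IsLocalRing

/-- If the Hilbert function of a finite-dimensional local algebra is not unimodal, no element of
the maximal ideal has the contiguous partition as its Jordan type. -/
theorem result (k A : Type) [Field k] [CommRing A] [Algebra k A] [IsLocalRing A]
    [Module.Finite k A] (hH : ¬ Unimodal (hilb k A)) (l : A) (hl : l ∈ maximalIdeal A) :
    ¬ IsJordanType (LinearMap.mulLeft k l) (contigA k A) :=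
  fun h => hH (main hl h fun _ => le_rfl).1

end Pool.Agent.Results.MP_de5a23_al.Never
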